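import Mathlib

set_option autoImplicit false

namespace Pool.Agent.Results.MP_118fda_co.AlternatingOrientation

open SimpleGraph

/-- The generalized Mycielski graph `M_r(G)`. The vertex `some (u, i)` is the vertex `(u, i+1)` of
level `i + 1` (so the levels `1, …, r` are indexed by `i = 0, …, r - 1`), and `none` is the apex
`z`. Edges: `(u,1)(v,1)` and `(u,i)(v,i+1)` for every edge `uv` of `G`, and `(u,r)z` for every
vertex `u` of `G`. -/
def genMycielski {V : Type} (G : SimpleGraph V) (r : ℕ) : SimpleGraph (Option (V × Fin r)) where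
  Adj a b :=
    match a, b with
    | some (u, i), some (v, j) =>
        G.Adj u v ∧ ((i.val = 0 ∧ j.val = 0) ∨ j.val = i.val + 1 ∨ i.val = j.val + 1)
    | some (_, i), none => i.val + 1 = r
    | none, some (_, i) => i.val + 1 = r
    | none, none => False
  symm := ⟨by
    intro a b h
    match a, b, h with
    | some (u, i), some (v, j), h =>
      obtain ⟨h1, h2⟩ := h
      exact ⟨h1.symm, by omega⟩
    | some (_, i), none, h => exact h
    | none, some (_, i), h => exact h⟩
  loopless := ⟨by
    intro a h
    match a, h with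
    | some (u, i), h => exact G.loopless.irrefl u h.1⟩

/-- An orientation of a graph `G`: every edge receives exactly one of its two directions.
`arc u v` means that the edge `uv` is directed from `u` to `v`. -/
structure GraphOrientation {V : Type} (G : SimpleGraph V) where
  /-- the directed edges -/
  arc : V → V → Prop
  /-- only edges of `G` are directed -/
  adj_of_arc : ∀ u v, arc u v → G.Adj u v
  /-- every edge of `G` is directed -/
  arc_or_arc : ∀ u v, G.Adj u v → arc u v ∨ arc v u
  /-- no edge is directed both ways -/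
  not_both : ∀ u v, ¬ (arc u v ∧ arc v u)

/-- In the closed walk `w`, all edges of `w` at `x` point away from `x`. -/
def IsSourceIn {V : Type} {G : SimpleGraph V} (D : GraphOrientation G) {v : V} (w : G.Walk v v)
    (x : V) : Prop :=
  ∀ y, s(x, y) ∈ w.edges → D.arc x y

/-- In the closed walk `w`, all edges of `w` at `x` point towards `x`. -/
def IsSinkIn {V : Type} {G : SimpleGraph V} (D : GraphOrientation G) {v : V} (w : G.Walk v v)
    (x : V) : Prop :=
  ∀ y, s(x, y) ∈ w.edges → D.arc y x

/-- The oriented cycle `w` is alternating: every vertex of `w`, with at most one exception, is a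
source or a sink in `w`. -/
def IsAlternating {V : Type} {G : SimpleGraph V} (D : GraphOrientation G) {v : V}
    (w : G.Walk v v) : Prop :=
  ∀ x ∈ w.support, ∀ y ∈ w.support,
    ¬ (IsSourceIn D w x ∨ IsSinkIn D w x) → ¬ (IsSourceIn D w y ∨ IsSinkIn D w y) → x = y

/-- `w` is a cycle of odd length, and no odd cycle of `G` is shorter. -/
def IsShortestOddCycle {V : Type} {G : SimpleGraph V} {v : V} (w : G.Walk v v) : Prop :=
  w.IsCycle ∧ Odd w.length ∧
    ∀ (x : V) (w' : G.Walk x x), w'.IsCycle → Odd w'.length → w.length ≤ w'.length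

/-! ### Orientations from two-colourings -/

/-- The orientation given by a two-colouring `c`: two-coloured edges go from `false` to `true`, and
the monochromatic edges are directed by a fixed well-order of the vertices. -/
def ofColoring {V : Type} (G : SimpleGraph V) (c : V → Bool) : GraphOrientation G where
  arc u v := G.Adj u v ∧ ((c u = false ∧ c v = true) ∨ (c u = c v ∧ WellOrderingRel u v))
  adj_of_arc u v h := h.1
  arc_or_arc u v h := by
    have hne : u ≠ v := h.ne
    rcases hu : c u <;> rcases hv : c v
    · rcases trichotomous_of WellOrderingRel u v with h1 | h1 | h1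
      · left; exact ⟨h, Or.inr ⟨by simp, h1⟩⟩
      · exact absurd h1 hne
      · right; exact ⟨h.symm, Or.inr ⟨by simp, h1⟩⟩
    · left; exact ⟨h, Or.inl ⟨rfl, rfl⟩⟩
    · right; exact ⟨h.symm, Or.inl ⟨rfl, rfl⟩⟩
    · rcases trichotomous_of WellOrderingRel u v with h1 | h1 | h1
      · left; exact ⟨h, Or.inr ⟨by simp, h1⟩⟩
      · exact absurd h1 hne
      · right; exact ⟨h.symm, Or.inr ⟨by simp, h1⟩⟩
  not_both u v := by
    rintro ⟨⟨_, h1⟩, ⟨_, h2⟩⟩
    rcases h1 with ⟨a, b⟩ | ⟨a, b⟩ <;> rcases h2 with ⟨a', b'⟩ | ⟨a', b'⟩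
    · simp [a] at b'
    · simp [a, b] at a'
    · simp [a', b'] at a
    · exact asymm_of WellOrderingRel b b'

/-- If a closed walk has at most one monochromatic edge, then it is alternating in the orientation
given by the colouring. -/
lemma isAlternating_ofColoring {V : Type} {G : SimpleGraph V} (c : V → Bool) {v : V}
    (w : G.Walk v v)
    (h : ∀ a b a' b' : V, s(a, b) ∈ w.edges → s(a', b') ∈ w.edges → c a = c b → c a' = c b' →
      s(a, b) = s(a', b')) :
    IsAlternating (ofColoring G c) w := by
  -- any exceptional vertex is an end of a monochromatic edge, of a definite kind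
  have key : ∀ x, ¬ (IsSourceIn (ofColoring G c) w x ∨ IsSinkIn (ofColoring G c) w x) →
      ∃ y, s(x, y) ∈ w.edges ∧ c x = c y ∧
        ((c x = false ∧ WellOrderingRel y x) ∨ (c x = true ∧ WellOrderingRel x y)) := by
    intro x hx
    rw [not_or] at hx
    obtain ⟨h1, h2⟩ := hx
    unfold IsSourceIn at h1
    unfold IsSinkIn at h2
    push Not at h1 h2
    rcases hc : c x
    · obtain ⟨y, hy, hy2⟩ := h1
      have hadj : G.Adj x y := w.adj_of_mem_edges hy
      refine ⟨y, hy, ?_⟩
      have hxy : c y = false := by
        by_contra hne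
        have : c y = true := by simpa using hne
        exact hy2 ⟨hadj, Or.inl ⟨hc, this⟩⟩
      refine ⟨hxy.symm, Or.inl ⟨rfl, ?_⟩⟩
      rcases trichotomous_of WellOrderingRel x y with h3 | h3 | h3
      · exact absurd ⟨hadj, Or.inr ⟨by rw [hc, hxy], h3⟩⟩ hy2
      · exact absurd h3 hadj.ne
      · exact h3
    · obtain ⟨y, hy, hy2⟩ := h2
      have hadj : G.Adj x y := w.adj_of_mem_edges hy
      refine ⟨y, hy, ?_⟩
      have hxy : c y = true := by
        by_contra hne
        have : c y = false := by simpa using hne
        exact hy2 ⟨hadj.symm, Or.inl ⟨this, hc⟩⟩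
      refine ⟨hxy.symm, Or.inr ⟨rfl, ?_⟩⟩
      rcases trichotomous_of WellOrderingRel x y with h3 | h3 | h3
      · exact h3
      · exact absurd h3 hadj.ne
      · exact absurd ⟨hadj.symm, Or.inr ⟨by rw [hc, hxy], h3⟩⟩ hy2
  intro x _ y _ hx hy
  obtain ⟨x', hx', hxc, hxo⟩ := key x hx
  obtain ⟨y', hy', hyc, hyo⟩ := key y hy
  have heq := h x x' y y' hx' hy' hxc hyc
  rw [Sym2.eq_iff] at heq
  rcases heq with ⟨h1, _⟩ | ⟨h1, h2⟩
  · exact h1
  · exfalso
    subst h1 h2
    rcases hxo with ⟨a, b⟩ | ⟨a, b⟩ <;> rcases hyo with ⟨a', b'⟩ | ⟨a', b'⟩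
    · exact asymm_of WellOrderingRel b b'
    · rw [hxc] at a; simp [a] at a'
    · rw [hxc] at a; simp [a] at a'
    · exact asymm_of WellOrderingRel b b'

/-! ### Counting monochromatic edges -/

/-- number of monochromatic darts of a walk -/
def mono {V : Type} {G : SimpleGraph V} (c : V → Bool) : {u v : V} → G.Walk u v → ℕ
  | _, _, .nil => 0
  | u, _, .cons (v := v) _ p => (if c u = c v then 1 else 0) + mono c p

lemma mono_parity {V : Type} {G : SimpleGraph V} (c : V → Bool) {u v : V} (w : G.Walk u v) :
    (mono c w + w.length + (if c u = c v then 0 else 1)) % 2 = 0 := by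
  induction w with
  | nil => simp [mono]
  | @cons a b d h p ih =>
    simp only [mono, Walk.length_cons]
    rcases ha : c a <;> rcases hb : c b <;> rcases hd : c d <;> simp [hb, hd] at ih ⊢ <;> omega

lemma sum_mono_le {V ι : Type} [Fintype ι] {G : SimpleGraph V} (c : ι → V → Bool)
    (hc : ∀ a b, G.Adj a b → ∀ i j, c i a = c i b → c j a = c j b → i = j)
    {u v : V} (w : G.Walk u v) : ∑ i, mono (c i) w ≤ w.length := by
  induction w with
  | nil => simp [mono]
  | @cons a b d h p ih =>
    simp only [mono, Walk.length_cons, Finset.sum_add_distrib]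
    have : (∑ i, if c i a = c i b then 1 else 0) ≤ 1 := by
      rw [Finset.sum_boole]
      simp only [Nat.cast_id]
      rw [Finset.card_le_one]
      intro i hi j hj
      simp only [Finset.mem_filter, Finset.mem_univ, true_and] at hi hj
      exact hc a b h i j hi hj
    omega

lemma edge_unique_of_mono_le_one {V : Type} {G : SimpleGraph V} (c : V → Bool) {u v : V}
    (w : G.Walk u v) :
    (mono c w = 0 → ∀ a b : V, s(a, b) ∈ w.edges → c a ≠ c b) ∧
    (mono c w ≤ 1 → ∀ a b a' b' : V, s(a, b) ∈ w.edges → s(a', b') ∈ w.edges → c a = c b →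
      c a' = c b' → s(a, b) = s(a', b')) := by
  induction w with
  | nil => simp
  | @cons p q r h w ih =>
    obtain ⟨ih0, ih1⟩ := ih
    have hmono : mono c (Walk.cons h w) = (if c p = c q then 1 else 0) + mono c w := rfl
    constructor
    · intro h0 a b hab
      rw [hmono] at h0
      have hpq : c p ≠ c q := by
        intro heq
        simp [heq] at h0
      have hw : mono c w = 0 := by omega
      rw [Walk.edges_cons, List.mem_cons] at hab
      rcases hab with hab | hab
      · rw [Sym2.eq_iff] at hab
        rcases hab with ⟨rfl, rfl⟩ | ⟨rfl, rfl⟩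
        · exact hpq
        · exact fun e => hpq e.symm
      · exact ih0 hw a b hab
    · intro h1 a b a' b' hab hab' hcc hcc'
      rw [hmono] at h1
      rw [Walk.edges_cons, List.mem_cons] at hab hab'
      by_cases hpq : c p = c q
      · simp only [hpq, if_true] at h1
        have hw : mono c w = 0 := by omega
        rcases hab with hab | hab
        · rcases hab' with hab' | hab'
          · rw [hab, hab']
          · exact absurd hcc' (ih0 hw a' b' hab')
        · exact absurd hcc (ih0 hw a b hab)
      · simp only [hpq, if_false] at h1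
        have hne : ∀ a b, s(a, b) = s(p, q) → c a = c b → False := by
          intro a b hab hcc
          rw [Sym2.eq_iff] at hab
          rcases hab with ⟨rfl, rfl⟩ | ⟨rfl, rfl⟩
          · exact hpq hcc
          · exact hpq hcc.symm
        rcases hab with hab | hab
        · exact absurd hcc (fun e => hne a b hab e)
        · rcases hab' with hab' | hab'
          · exact absurd hcc' (fun e => hne a' b' hab' e)
          · exact ih1 (by omega) a b a' b' hab hab' hcc hcc'

/-- If a graph has `L` two-colourings such that every edge is monochromatic for at most one of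
them, and it has an odd cycle of length at most `L`, then it has an orientation in which every
shortest odd cycle is alternating. -/
theorem exists_orientation {V : Type} {G : SimpleGraph V} {L : ℕ} (hL : 0 < L)
    (c : Fin L → V → Bool)
    (hc : ∀ a b, G.Adj a b → ∀ i j, c i a = c i b → c j a = c j b → i = j)
    (hG : ∃ (x : V) (w : G.Walk x x), w.IsCycle ∧ Odd w.length ∧ w.length ≤ L) :
    ∃ D : GraphOrientation G, ∀ (v : V) (w : G.Walk v v), IsShortestOddCycle w →
      IsAlternating D w := by
  refine ⟨ofColoring G (c ⟨0, hL⟩), ?_⟩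
  intro v w hw
  obtain ⟨x, w', hw'1, hw'2, hw'3⟩ := hG
  have hlen : w.length ≤ L := (hw.2.2 x w' hw'1 hw'2).trans hw'3
  apply isAlternating_ofColoring
  apply (edge_unique_of_mono_le_one (c ⟨0, hL⟩) w).2
  have hpos : ∀ i, 1 ≤ mono (c i) w := by
    intro i
    have h1 := mono_parity (c i) w
    obtain ⟨t, ht⟩ := hw.2.1
    simp only [if_true] at h1
    omega
  have hsum := sum_mono_le c hc w
  by_contra hcon
  have hlt : ∑ _i : Fin L, 1 < ∑ i, mono (c i) w := by
    apply Finset.sum_lt_sum
    · intro i _; exact hpos i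
    · exact ⟨⟨0, hL⟩, Finset.mem_univ _, by omega⟩
  simp at hlt
  omega

/-! ### The colourings of generalized Mycielski graphs of odd cycles -/

lemma cycleGraph_adj_val {n : ℕ} {u v : Fin n} (h : (cycleGraph n).Adj u v) :
    u.val = v.val + 1 ∨ v.val = u.val + 1 ∨ (u.val = 0 ∧ v.val + 1 = n) ∨
      (v.val = 0 ∧ u.val + 1 = n) := by
  rw [cycleGraph_adj'] at h
  have hu := u.isLt
  have hv := v.isLt
  rcases h with h | h
  · rcases Nat.lt_or_ge u.val v.val with h1 | h1
    · rw [Fin.coe_sub_iff_lt.mpr h1] at h
      omega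
    · rw [Fin.sub_val_of_le h1] at h
      omega
  · rcases Nat.lt_or_ge v.val u.val with h1 | h1
    · rw [Fin.coe_sub_iff_lt.mpr h1] at h
      omega
    · rw [Fin.sub_val_of_le h1] at h
      omega

lemma cycleGraph_adj_of_val {n : ℕ} {u v : Fin n} (hn : 2 ≤ n)
    (h : u.val = v.val + 1 ∨ v.val = u.val + 1 ∨ (u.val = 0 ∧ v.val + 1 = n) ∨
      (v.val = 0 ∧ u.val + 1 = n)) : (cycleGraph n).Adj u v := by
  rw [cycleGraph_adj']
  have hu := u.isLt
  have hv := v.isLt
  rcases h with h | h | h | h
  · left
    rw [Fin.sub_val_of_le (by rw [Fin.le_def]; omega)]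
    omega
  · right
    rw [Fin.sub_val_of_le (by rw [Fin.le_def]; omega)]
    omega
  · left
    rw [Fin.coe_sub_iff_lt.mpr (by rw [Fin.lt_def]; omega)]
    omega
  · right
    rw [Fin.coe_sub_iff_lt.mpr (by rw [Fin.lt_def]; omega)]
    omega

/-- The cyclic offset `u - i` in `{0, …, n-1}`. -/
def off (n u i : ℕ) : ℕ := if i ≤ u then u - i else u + n - i

/-- Whether the offset `v` (a residue mod `2m+1`) has absolute value at most `m - (l+1)` and the
same parity as `m - (l+1)`. -/
def inT (m l v : ℕ) : Bool :=
  decide ((v + l + 1 ≤ m ∧ (m + v + l + 1) % 2 = 0) ∨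
    (m < v ∧ (2 * m + 1 - v) + l + 1 ≤ m ∧ (m + (2 * m + 1 - v) + l + 1) % 2 = 0))

/-- The `i`-th colouring of `M_r(C_{2m+1})`, as a function of the level index `l` and of the
vertex `u` of the cycle. -/
def col (m i u l : ℕ) : Bool := xor (decide (l % 2 = 0)) (inT m l (off (2 * m + 1) u i))

/-- The colour of the apex. -/
def colZ (r : ℕ) : Bool := decide (r % 2 = 0)

/-- A consecutive pair of residues modulo `n`. -/
def Consec (n u u' : ℕ) : Prop := u' = u + 1 ∨ (u + 1 = n ∧ u' = 0)

lemma off_consec {n u u' i : ℕ} (hu : u < n) (hu' : u' < n) (hi : i < n)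
    (h : Consec n u u') : Consec n (off n u i) (off n u' i) := by
  unfold Consec off at *
  split_ifs <;> omega

lemma off_lt {n u i : ℕ} (hu : u < n) (_hi : i < n) : off n u i < n := by
  unfold off
  split_ifs <;> omega

lemma off_inj {n u i j : ℕ} (_hu : u < n) (hi : i < n) (hj : j < n)
    (h : off n u i = off n u j) : i = j := by
  unfold off at h
  split_ifs at h <;> omega

lemma xor_aux (l : ℕ) (x y : Bool)
    (h : xor (decide (l % 2 = 0)) x = xor (decide ((l + 1) % 2 = 0)) y) : x ≠ y := by
  rcases Nat.mod_two_eq_zero_or_one l with h0 | h0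
  · have h1 : (l + 1) % 2 = 1 := by omega
    simp only [h0, h1] at h
    revert h
    cases x <;> cases y <;> simp
  · have h1 : (l + 1) % 2 = 0 := by omega
    simp only [h0, h1] at h
    revert h
    cases x <;> cases y <;> simp

/-- Upward edge in increasing direction: only one offset is monochromatic. -/
lemma mono_up_inc {m l v v' : ℕ} (hv' : v' < 2 * m + 1)
    (h : Consec (2 * m + 1) v v')
    (hm : xor (decide (l % 2 = 0)) (inT m l v) =
      xor (decide ((l + 1) % 2 = 0)) (inT m (l + 1) v')) :
    v + l + 1 = m := by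
  by_contra hne
  apply xor_aux l _ _ hm
  unfold inT Consec at *
  rw [decide_eq_decide]
  constructor
  · rintro (h1 | h1)
    · rcases h with h | h
      · left; omega
      · omega
    · rcases h with h | h
      · right; omega
      · left; omega
  · rintro (h1 | h1)
    · rcases h with h | h
      · left; omega
      · right; omega
    · rcases h with h | h
      · right; omega
      · omega

/-- Upward edge in decreasing direction: only one offset is monochromatic. -/
lemma mono_up_dec {m l v v' : ℕ} (hv : v < 2 * m + 1)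
    (h : Consec (2 * m + 1) v' v)
    (hm : xor (decide (l % 2 = 0)) (inT m l v) =
      xor (decide ((l + 1) % 2 = 0)) (inT m (l + 1) v')) :
    (v = 0 ∧ l + 1 = m) ∨ (v = m + l + 2 ∧ l + 1 < m) := by
  by_contra hne
  apply xor_aux l _ _ hm
  unfold inT Consec at *
  rw [decide_eq_decide]
  constructor
  · rintro (h1 | h1)
    · rcases h with h | h
      · left; omega
      · right; omega
    · rcases h with h | h
      · right; omega
      · omega
  · rintro (h1 | h1)
    · rcases h with h | h
      · left; omega
      · omega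
    · rcases h with h | h
      · right; omega
      · left; omega

/-- Edge inside level one: only one offset is monochromatic. -/
lemma mono_bottom {m v v' : ℕ} (hm1 : 1 ≤ m) (hv' : v' < 2 * m + 1)
    (h : Consec (2 * m + 1) v v') (hm : inT m 0 v = inT m 0 v') : v = m := by
  by_contra hne
  unfold inT Consec at *
  rw [decide_eq_decide] at hm
  rcases h with h | h
  · omega
  · omega

/-- Edge to the apex: only one offset is monochromatic. -/
lemma mono_apex {m r l v : ℕ} (hv : v < 2 * m + 1) (hl : l + 1 = r) (hmr : m ≤ r)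
    (hm : xor (decide (l % 2 = 0)) (inT m l v) = decide (r % 2 = 0)) : v = 0 := by
  by_contra hne
  have h1 : xor (decide (l % 2 = 0)) (inT m l v) = xor (decide ((l + 1) % 2 = 0)) false := by
    rw [hl]
    simpa using hm
  apply xor_aux l _ _ h1
  unfold inT
  rw [decide_eq_false_iff_not]
  omega

/-- Folding the cycle of length `2k+1` onto the cycle of length `2m+1`. -/
def fold (m x : ℕ) : ℕ := if x ≤ 2 * m then x else if x % 2 = 0 then 2 * m else 2 * m - 1

lemma fold_lt (m x : ℕ) : fold m x < 2 * m + 1 := by
  unfold fold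
  split_ifs <;> omega

lemma fold_consec {m k x x' : ℕ} (hm : 1 ≤ m) (hmk : m ≤ k) (_hx : x < 2 * k + 1)
    (h : Consec (2 * k + 1) x x') :
    Consec (2 * m + 1) (fold m x) (fold m x') ∨ Consec (2 * m + 1) (fold m x') (fold m x) := by
  unfold Consec fold at *
  split_ifs <;> omega

lemma adj_consec {n : ℕ} {u v : Fin n} (h : (cycleGraph n).Adj u v) :
    Consec n u.val v.val ∨ Consec n v.val u.val := by
  have := cycleGraph_adj_val h
  unfold Consec
  omega

/-- The `i`-th colouring of `M_r(C_{2k+1})`, where `m = min r k`. -/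
def colG (m k r : ℕ) (i : Fin (2 * m + 1)) : Option (Fin (2 * k + 1) × Fin r) → Bool
  | some (u, l) => xor (decide (l.val % 2 = 0)) (inT m l.val (off (2 * m + 1) (fold m u.val) i.val))
  | none => decide (r % 2 = 0)

/-- All `i` for which an edge between level index `l` and level index `l+1` is monochromatic are
equal. -/
lemma up_unique {m l a b : ℕ} (i j : Fin (2 * m + 1)) (ha : a < 2 * m + 1)
    (hb : b < 2 * m + 1)
    (h : Consec (2 * m + 1) a b ∨ Consec (2 * m + 1) b a)
    (hi : xor (decide (l % 2 = 0)) (inT m l (off (2 * m + 1) a i.val)) =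
      xor (decide ((l + 1) % 2 = 0)) (inT m (l + 1) (off (2 * m + 1) b i.val)))
    (hj : xor (decide (l % 2 = 0)) (inT m l (off (2 * m + 1) a j.val)) =
      xor (decide ((l + 1) % 2 = 0)) (inT m (l + 1) (off (2 * m + 1) b j.val))) : i = j := by
  have hai := off_lt ha i.isLt
  have haj := off_lt ha j.isLt
  have hbi := off_lt hb i.isLt
  have hbj := off_lt hb j.isLt
  rcases h with h | h
  · have h1 := mono_up_inc hbi (off_consec ha hb i.isLt h) hi
    have h2 := mono_up_inc hbj (off_consec ha hb j.isLt h) hj
    exact Fin.ext (off_inj ha i.isLt j.isLt (by omega))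
  · have h1 := mono_up_dec hai (off_consec hb ha i.isLt h) hi
    have h2 := mono_up_dec haj (off_consec hb ha j.isLt h) hj
    exact Fin.ext (off_inj ha i.isLt j.isLt (by omega))

lemma bottom_unique {m a b : ℕ} (hm : 1 ≤ m) (i j : Fin (2 * m + 1)) (ha : a < 2 * m + 1)
    (hb : b < 2 * m + 1) (h : Consec (2 * m + 1) a b)
    (hi : inT m 0 (off (2 * m + 1) a i.val) = inT m 0 (off (2 * m + 1) b i.val))
    (hj : inT m 0 (off (2 * m + 1) a j.val) = inT m 0 (off (2 * m + 1) b j.val)) : i = j := by
  have hbi := off_lt hb i.isLt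
  have hbj := off_lt hb j.isLt
  have h1 := mono_bottom hm hbi (off_consec ha hb i.isLt h) hi
  have h2 := mono_bottom hm hbj (off_consec ha hb j.isLt h) hj
  exact Fin.ext (off_inj ha i.isLt j.isLt (by omega))

lemma colG_unique {m k r : ℕ} (hm : 1 ≤ m) (hmk : m ≤ k) (hmr : m ≤ r)
    (a b : Option (Fin (2 * k + 1) × Fin r))
    (hab : (genMycielski (cycleGraph (2 * k + 1)) r).Adj a b) (i j : Fin (2 * m + 1))
    (hi : colG m k r i a = colG m k r i b) (hj : colG m k r j a = colG m k r j b) : i = j := by
  match a, b, hab with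
  | some (u, l), some (u', l'), hab =>
    obtain ⟨h1, h2⟩ := hab
    have hc : Consec (2 * m + 1) (fold m u.val) (fold m u'.val) ∨
        Consec (2 * m + 1) (fold m u'.val) (fold m u.val) := by
      rcases adj_consec h1 with h3 | h3
      · exact fold_consec hm hmk u.isLt h3
      · exact (fold_consec hm hmk u'.isLt h3).symm
    simp only [colG] at hi hj
    rcases h2 with ⟨h2, h3⟩ | h2 | h2
    · rw [h2, h3] at hi hj
      have hi' : inT m 0 (off (2 * m + 1) (fold m u.val) i.val) =
          inT m 0 (off (2 * m + 1) (fold m u'.val) i.val) := by simpa using hi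
      have hj' : inT m 0 (off (2 * m + 1) (fold m u.val) j.val) =
          inT m 0 (off (2 * m + 1) (fold m u'.val) j.val) := by simpa using hj
      rcases hc with hc | hc
      · exact bottom_unique hm i j (fold_lt _ _) (fold_lt _ _) hc hi' hj'
      · exact bottom_unique hm i j (fold_lt _ _) (fold_lt _ _) hc hi'.symm hj'.symm
    · rw [h2] at hi hj
      exact up_unique i j (fold_lt _ _) (fold_lt _ _) hc hi hj
    · rw [h2] at hi hj
      exact up_unique i j (fold_lt _ _) (fold_lt _ _) hc.symm hi.symm hj.symm
  | some (u, l), none, hab =>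
    have hl : l.val + 1 = r := hab
    simp only [colG] at hi hj
    have h1 := mono_apex (off_lt (fold_lt m u.val) i.isLt) hl hmr hi
    have h2 := mono_apex (off_lt (fold_lt m u.val) j.isLt) hl hmr hj
    exact Fin.ext (off_inj (fold_lt m u.val) i.isLt j.isLt (by omega))
  | none, some (u, l), hab =>
    have hl : l.val + 1 = r := hab
    simp only [colG] at hi hj
    have h1 := mono_apex (off_lt (fold_lt m u.val) i.isLt) hl hmr hi.symm
    have h2 := mono_apex (off_lt (fold_lt m u.val) j.isLt) hl hmr hj.symm
    exact Fin.ext (off_inj (fold_lt m u.val) i.isLt j.isLt (by omega))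

/-! ### Short odd cycles -/

/-- The level-one copy of the odd cycle. -/
lemma exists_cycle_level {k r : ℕ} (hk : 1 ≤ k) (hr : 1 ≤ r) :
    ∃ (x : Option (Fin (2 * k + 1) × Fin r))
      (w : (genMycielski (cycleGraph (2 * k + 1)) r).Walk x x),
      w.IsCycle ∧ w.length = 2 * k + 1 := by
  rw [← cycleGraph_isContained_iff (by omega)]
  refine ⟨⟨⟨fun u => some (u, ⟨0, hr⟩), ?_⟩, ?_⟩⟩
  · intro a b hab
    exact ⟨hab, Or.inl ⟨rfl, rfl⟩⟩
  · intro a b hab
    change (some (a, (⟨0, hr⟩ : Fin r))) = some (b, (⟨0, hr⟩ : Fin r)) at hab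
    simpa using hab

/-- The vertex map of the short odd cycle through the apex. -/
def apexMap (k r : ℕ) (hrk : r < k) (j : Fin (2 * r + 1)) : Option (Fin (2 * k + 1) × Fin r) :=
  if h0 : j.val = 0 then none
  else if h1 : j.val ≤ r then
    some (⟨j.val, by omega⟩, ⟨r - j.val, by omega⟩)
  else some (⟨j.val, by omega⟩, ⟨j.val - r - 1, by omega⟩)

/-- The short odd cycle through the apex. -/
lemma exists_cycle_apex {k r : ℕ} (hr : 1 ≤ r) (hrk : r < k) :
    ∃ (x : Option (Fin (2 * k + 1) × Fin r))
      (w : (genMycielski (cycleGraph (2 * k + 1)) r).Walk x x),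
      w.IsCycle ∧ w.length = 2 * r + 1 := by
  rw [← cycleGraph_isContained_iff (by omega)]
  have key : ∀ a b : Fin (2 * r + 1), Consec (2 * r + 1) a.val b.val →
      (genMycielski (cycleGraph (2 * k + 1)) r).Adj (apexMap k r hrk a) (apexMap k r hrk b) := by
    intro a b hab
    have ha := a.isLt
    have hb := b.isLt
    unfold Consec at hab
    unfold apexMap
    split_ifs with h1 h2 h3 h4 h5 h6 h7 h8
    · omega
    · show r - b.val + 1 = r
      omega
    · exfalso; omega
    · exfalso; omega
    · refine ⟨cycleGraph_adj_of_val (by omega) ?_, ?_⟩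
      · show a.val = b.val + 1 ∨ b.val = a.val + 1 ∨ _
        omega
      · right; right
        show r - a.val = r - b.val + 1
        omega
    · refine ⟨cycleGraph_adj_of_val (by omega) ?_, ?_⟩
      · show a.val = b.val + 1 ∨ b.val = a.val + 1 ∨ _
        omega
      · left
        show r - a.val = 0 ∧ b.val - r - 1 = 0
        omega
    · show a.val - r - 1 + 1 = r
      omega
    · exfalso; omega
    · refine ⟨cycleGraph_adj_of_val (by omega) ?_, ?_⟩
      · show a.val = b.val + 1 ∨ b.val = a.val + 1 ∨ _
        omega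
      · right; left
        show b.val - r - 1 = a.val - r - 1 + 1
        omega
  refine ⟨⟨⟨apexMap k r hrk, ?_⟩, ?_⟩⟩
  · intro a b hab
    rcases adj_consec hab with h | h
    · exact key a b h
    · exact (key b a h).symm
  · intro a b hab
    change apexMap k r hrk a = apexMap k r hrk b at hab
    unfold apexMap at hab
    apply Fin.ext
    split_ifs at hab with h1 h2 h3 h4 h5 h6 h7 h8
    · omega
    all_goals
      simp only [Option.some.injEq, Prod.mk.injEq, Fin.mk.injEq] at hab
      exact hab.1

/-- **Answer to Q1 (positive).** For all `r ≥ 1` and `k ≥ 1`, the generalized Mycielski graph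
`M_r(C_{2k+1})` has an orientation in which every shortest odd cycle is alternating. -/
theorem result (r k : ℕ) (hr : 1 ≤ r) (hk : 1 ≤ k) :
    ∃ D : GraphOrientation (genMycielski (cycleGraph (2 * k + 1)) r),
      ∀ (v : Option (Fin (2 * k + 1) × Fin r))
        (w : (genMycielski (cycleGraph (2 * k + 1)) r).Walk v v),
        IsShortestOddCycle w → IsAlternating D w := by
  have hm : 1 ≤ min r k := by omega
  apply exists_orientation (L := 2 * min r k + 1) (by omega) (colG (min r k) k r)
    (colG_unique hm (min_le_right r k) (min_le_left r k))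
  rcases Nat.lt_or_ge r k with h | h
  · obtain ⟨x, w, hw, hlen⟩ := exists_cycle_apex hr h
    refine ⟨x, w, hw, ?_, ?_⟩
    · rw [hlen]; exact ⟨r, rfl⟩
    · rw [hlen, min_eq_left h.le]
  · obtain ⟨x, w, hw, hlen⟩ := exists_cycle_level hk hr
    refine ⟨x, w, hw, ?_, ?_⟩
    · rw [hlen]; exact ⟨k, rfl⟩
    · rw [hlen, min_eq_right h]

end Pool.Agent.Results.MP_118fda_co.AlternatingOrientation
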